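import Mathlib

namespace Pool.Agent.Results.MP_57045c_lc.Owa

open Finset

variable {n k : ℕ}

/-- the weights applied to the satisfactions sorted increasingly -/
noncomputable def owa (α : Fin n → ℝ) (s : Fin n → ℕ) : ℝ := ∑ j, α j * s (Tuple.sort s j)

/-- satisfactions after the issues before `i`, decided by `w`, and candidate `c` on issue `i` -/
def sat (A : Fin k → Fin n → Finset ℕ) (w : Fin k → ℕ) (i : Fin k) (c : ℕ) (v : Fin n) : ℕ :=
  card {j | j < i ∧ w j ∈ A j v} + if c ∈ A i v then 1 else 0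

/-- `w` is the outcome of the sequential rule; ties go to the smaller candidate -/
def Out (α : Fin n → ℝ) (C : Fin k → Finset ℕ) (A : Fin k → Fin n → Finset ℕ) (w : Fin k → ℕ) :
    Prop :=
  ∀ i, w i ∈ C i ∧ ∀ c ∈ C i, owa α (sat A w i c) < owa α (sat A w i (w i)) ∨
    (owa α (sat A w i c) = owa α (sat A w i (w i)) ∧ w i ≤ c)

/-- some election has a harmful free-riding -/
def Harm (α : Fin n → ℝ) : Prop :=
  ∃ (k : ℕ) (C : Fin k → Finset ℕ) (A A' : Fin k → Fin n → Finset ℕ) (w w' : Fin k → ℕ)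
    (v : Fin n) (i : Fin k), (∀ j u, A j u ⊆ C j ∧ A' j u ⊆ C j) ∧
    (∀ j u, (j, u) ≠ (i, v) → A' j u = A j u) ∧ Out α C A w ∧ Out α C A' w' ∧
    w i ∈ A i v ∧ w i ∉ A' i v ∧ w' i = w i ∧
    card {j | w' j ∈ A j v} < card {j | w j ∈ A j v}

lemma owa_eq (α : Fin n → ℝ) (s : Fin n → ℕ) (σ : Equiv.Perm (Fin n)) (h : Monotone (s ∘ σ)) :
    owa α s = ∑ j, α j * s (σ j) :=
  sum_congr rfl fun j _ => by
    rw [show s (σ j) = s (Tuple.sort s j) from
      congrFun (Tuple.comp_sort_eq_comp_iff_monotone.2 h) j]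

lemma owa_ins (α : Fin (n + 1) → ℝ) (x : Fin (n + 1)) (m : ℕ) (t : Fin n → ℕ)
    (h : ∀ r r', (x.succAbove r < x → t r' ≤ m) ∧ (x < x.succAbove r → m ≤ t r')) :
    owa α (x.insertNth m t) = α x * m + owa (α ∘ x.succAbove) t := by
  let σ : Equiv.Perm (Fin (n + 1)) :=
    (finSuccEquiv' x).trans ((Tuple.sort t).optionCongr.trans (finSuccEquiv' x).symm)
  have e1 : σ x = x := by simp [σ]
  have e2 (r) : σ (x.succAbove r) = x.succAbove (Tuple.sort t r) := by simp [σ]
  rw [owa_eq α _ σ, Fin.sum_univ_succAbove _ x]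
  · simp [e1, e2, owa]
  · intro a b hab
    induction a using x.succAboveCases <;> induction b using x.succAboveCases <;>
      simp only [Function.comp, e1, e2, Fin.insertNth_apply_same, Fin.insertNth_apply_succAbove]
    · rfl
    · exact (h _ _).2 (hab.lt_of_ne (Fin.ne_succAbove _ _))
    · exact (h _ _).1 (hab.lt_of_ne (Fin.succAbove_ne _ _))
    · exact Tuple.monotone_sort t (Fin.succAbove_le_succAbove_iff.1 hab)

lemma sat_le (A : Fin k → Fin n → Finset ℕ) (w i c v) : sat A w i c v ≤ card {j | j < i} + 1 :=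
  add_le_add (card_le_card fun j => by simp +contextual) (by split_ifs <;> omega)

lemma lift (α : Fin (n + 1) → ℝ) (x : Fin (n + 1)) (hx : x = 0 ∨ x = Fin.last n)
    (h : Harm (α ∘ x.succAbove)) : Harm α := by
  obtain ⟨k, C, A, A', w, w', v, i, h1, h2, h3, h4, h5, h6, h7, h8⟩ := h
  let L (A : Fin k → Fin n → Finset ℕ) (j : Fin k) : Fin (n + 1) → Finset ℕ :=
    x.insertNth (if x = 0 then ∅ else C j) (A j)
  have out {A w} (h : Out (α ∘ x.succAbove) C A w) : Out α C (L A) w := fun i => by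
    have key (c) (hc : c ∈ C i) : owa α (sat (L A) w i c) =
        α x * (if x = 0 then 0 else card {j | j < i} + 1 : ℕ) +
          owa (α ∘ x.succAbove) (sat A w i c) := by
      rw [← owa_ins]
      · congr 1
        funext u
        induction u using x.succAboveCases
        · by_cases e : x = 0 <;> simp [sat, L, e, hc, (h _).1]
        · simp [sat, L]
      · intro r r'
        by_cases e : x = 0
        · simp [e]
        · rw [if_neg e, hx.resolve_left e]
          exact ⟨fun _ => sat_le .., fun l => absurd l (Fin.le_last _).not_gt⟩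
    refine ⟨(h i).1, fun c hc => ?_⟩
    rw [key c hc, key _ (h i).1, add_lt_add_iff_left, add_right_inj]
    exact (h i).2 c hc
  refine ⟨k, C, L A, L A', w, w', x.succAbove v, i, fun j u => ?_, fun j u e => ?_, out h3, out h4,
    by simpa [L], by simpa [L], h7, by simpa [L]⟩
  · induction u using x.succAboveCases
    · by_cases e : x = 0 <;> simp [L, e]
    · simpa [L] using h1 _ _
  · induction u using x.succAboveCases
    · simp [L]
    · simpa [L] using h2 _ _ fun e' => e (by cases e'; rfl)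

def rk (s : Fin n → ℕ) (j : Fin n) : ℕ := card {t ∈ range 5 | card {v | s v ≤ t} ≤ j}

lemma owa_rk (α : Fin n → ℝ) (s : Fin n → ℕ) (h : ∀ v, s v ≤ 5) : owa α s = ∑ j, α j * rk s j := by
  refine sum_congr rfl fun j _ => ?_
  have : {t ∈ range 5 | card {v | s v ≤ t} ≤ j} = range (s (Tuple.sort s j)) := by
    ext t
    have := Tuple.lt_card_le_iff_apply_le_of_monotone (a := t) (j := j) (Tuple.monotone_sort s)
    rw [show card {v | (s ∘ Tuple.sort s) v ≤ t} = card {v | s v ≤ t} from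
      card_equiv (Tuple.sort s) (by simp)] at this
    have := h (Tuple.sort s j)
    simp only [mem_filter, mem_range, Function.comp] at *
    omega
  rw [rk, this, card_range]

def C5 (j : Fin 5) : Finset ℕ := if j = 0 then {0} else {0, 1}

def Cert (A : Fin 5 → Fin 4 → Finset ℕ) (w : Fin 5 → ℕ) (St : List (Fin 4 × Fin 4)) : Prop :=
  ∀ i, w i ∈ C5 i ∧ ∀ c ∈ C5 i, (∃ p ∈ St, ∀ j, rk (sat A w i (w i)) j + (if j = p.2 then 1 else 0) =
    rk (sat A w i c) j + if j = p.1 then 1 else 0) ∨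
    ((∀ j, rk (sat A w i c) j = rk (sat A w i (w i)) j) ∧ w i ≤ c)

instance (A w St) : Decidable (Cert A w St) := by unfold Cert; infer_instance

lemma Cert.out {A w St} (h : Cert A w St) {α : Fin 4 → ℝ} (hα : ∀ p ∈ St, α p.2 < α p.1) :
    Out α C5 A w := fun i => ⟨(h i).1, fun c hc => by
  have b (c v) : sat A w i c v ≤ 5 := (sat_le ..).trans ((by decide : ∀ i : Fin 5, card {j | j < i} + 1 ≤ 5) i)
  rw [owa_rk α _ (b _), owa_rk α _ (b _)]
  refine ((h i).2 c hc).imp (fun ⟨p, hp, e⟩ => ?_) fun e => ⟨by simp only [e.1], e.2⟩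
  have := sum_congr rfl fun j (_ : j ∈ univ) => congrArg (fun m : ℕ => α j * m) (e j)
  simp [mul_add, sum_add_distrib] at this
  linarith [hα p hp]⟩

lemma cert (A : Fin 5 → Fin 4 → Finset ℕ) (w w' : Fin 5 → ℕ) (St : List (Fin 4 × Fin 4))
    {α : Fin 4 → ℝ} (hα : ∀ p ∈ St, α p.2 < α p.1)
    (h : Cert A w St ∧ Cert (fun j u => if (j, u) = (0, 0) then ∅ else A j u) w' St ∧
      (∀ j u, A j u ⊆ C5 j) ∧ w 0 ∈ A 0 0 ∧ w' 0 = w 0 ∧
      card {j | w' j ∈ A j 0} < card {j | w j ∈ A j 0}) : Harm α :=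
  ⟨5, C5, A, _, w, w', 0, 0, fun j u => ⟨h.2.2.1 j u, by split_ifs <;> simp [h.2.2.1]⟩,
    fun _ _ e => if_neg e, h.1.out hα, h.2.1.out hα, h.2.2.2.1, by simp, h.2.2.2.2⟩

lemma base (α : Fin 4 → ℝ) (h : ∃ i j, α i ≠ α j) : Harm α := by
  by_cases h1 : α 0 < α 1
  · exact cert ![![{0}, ∅, {0}, {0}], ![{1}, {0}, {0, 1}, {0, 1}], ⊥, ⊥, ⊥] ![0, 1, 0, 0, 0] 0
      [(1, 0)] (by simpa) (by decide +kernel)
  by_cases h2 : α 1 < α 2
  · exact cert ![![{0}, ∅, ∅, {0}], ![{1}, ∅, {0}, {0, 1}], ⊥, ⊥, ⊥] ![0, 1, 0, 0, 0] 0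
      [(2, 1)] (by simpa) (by decide +kernel)
  by_cases h3 : α 2 < α 3
  · exact cert ![![{0}, ∅, ∅, ∅], ![{1}, ∅, ∅, {0}], ⊥, ⊥, ⊥] ![0, 1, 0, 0, 0] 0
      [(3, 2)] (by simpa) (by decide +kernel)
  by_cases h4 : α 2 < α 0
  · exact cert ![![{0}, ∅, ∅, ∅], ![{0}, {1}, {0, 1}, {0, 1}], ![{0}, {1}, {1}, {0}],
      ![∅, {0, 1}, ∅, ∅], ![{1}, {0}, {1}, {0}]] ![0, 1, 0, 0, 1] ![0, 0, 1, 0, 0]
      [(0, 2), (0, 3)] (by simp; constructor <;> linarith) (by decide +kernel)
  by_cases h5 : α 3 < α 2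
  · exact cert ![![{0}, ∅, ∅, ∅], ![{0}, ∅, ∅, {1}], ![{0}, {1}, {0}, {1}],
      ![∅, {0, 1}, {0, 1}, ∅], ![{0}, {0}, {1}, {1}]] ![0, 1, 0, 0, 0] ![0, 0, 1, 0, 1]
      [(2, 3), (1, 3)] (by simp; constructor <;> linarith) (by decide +kernel)
  obtain ⟨i, j, h⟩ := h
  have : ∀ i, α i = α 0 := fun i => by fin_cases i <;> simp <;> linarith
  exact absurd ((this i).trans (this j).symm) h

lemma big (m : ℕ) : ∀ α : Fin (m + 4) → ℝ, (∃ i j, α i ≠ α j) → Harm α := by
  induction m with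
  | zero => exact base
  | succ m ih =>
    intro α h
    by_contra k
    have k1 := mt (fun e => lift α 0 (.inl rfl) (ih _ e)) k
    have k2 := mt (fun e => lift α _ (.inr rfl) (ih _ e)) k
    push Not at k1 k2
    obtain ⟨i, j, h⟩ := h
    have : ∀ i, α i = α 1 := fun i => by
      induction i using Fin.cases
      · simpa using k2 0 1
      · simpa using k1 _ 0
    exact h ((this i).trans (this j).symm)

def Step (α : Fin n → ℝ) : Prop :=
  ∀ (s s' b b' : Fin n → ℕ) (y : Fin n), (∀ v, b v ≤ 1 ∧ b' v ≤ 1) → s = s' + Pi.single y 1 →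
    owa α (s + b') ≤ owa α (s + b) → owa α (s' + b) ≤ owa α (s' + b') →
    owa α (s + b') < owa α (s + b) ∨ owa α (s' + b) < owa α (s' + b') →
    ∃ y', s + b = s' + b' + Pi.single y' 1

lemma Step.safe {α : Fin n → ℝ} (H : Step α) : ¬ Harm α := by
  rintro ⟨k, C, A, A', w, w', v, i, -, h2, h3, h4, h5, h6, h7, h8⟩
  let S (A : Fin k → Fin n → Finset ℕ) (w : Fin k → ℕ) (m : ℕ) (u : Fin n) : ℕ :=
    card {j | j.val < m ∧ w j ∈ A j u}
  let b (A : Fin k → Fin n → Finset ℕ) (j : Fin k) (c : ℕ) (u : Fin n) : ℕ :=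
    if c ∈ A j u then 1 else 0
  have e0 (A w j c) : sat A w j c = S A w j + b A j c := rfl
  have e1 (A w) (j : Fin k) : S A w (j + 1) = S A w j + b A j (w j) := by
    funext u
    simp only [S, b, Pi.add_apply, card_filter]
    rw [← add_sum_erase _ _ (mem_univ j), ← add_sum_erase _ _ (mem_univ j)]
    simp only [lt_add_one, true_and, lt_self_iff_false, false_and, if_false, zero_add, add_comm]
    congr 1
    refine sum_congr rfl fun l hl => if_congr (and_congr_left' ?_) rfl rfl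
    have : l.val ≠ j.val := fun e => (mem_erase.1 hl).1 (Fin.ext e)
    omega
  have e2 {j} (hj : j ≠ i) : b A' j = b A j := by
    funext c u
    simp only [b, h2 j u fun e => hj (Prod.mk.inj e).1]
  have cmp (j) := (e0 A w j _ ▸ e0 A w j _ ▸ (h3 j).2 _ (h4 j).1 :)
  have cmp' (j) := (e0 A' w' j _ ▸ e0 A' w' j _ ▸ (h4 j).2 _ (h3 j).1 :)
  have key (m : ℕ) (hm : m ≤ k) : (m ≤ i → S A w m = S A' w' m) ∧
      (i < m → ∃ y, S A w m = S A' w' m + Pi.single y 1) := by
    induction m with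
    | zero => exact ⟨fun _ => by funext u; simp [S], by simp⟩
    | succ m ih =>
      obtain ⟨j, rfl⟩ : ∃ j : Fin k, j.val = m := ⟨⟨m, hm⟩, rfl⟩
      replace ih := ih j.2.le
      have c1 := cmp j
      have c2 := cmp' j
      rw [e1, e1]
      rcases lt_trichotomy j i with l | rfl | l
      · refine ⟨fun _ => ?_, fun l' => absurd l' (by omega)⟩
        rw [e2 l.ne, ← ih.1 l.le] at c2 ⊢
        rw [show w' j = w j by
          rcases c1 with c1 | c1 <;> rcases c2 with c2 | c2 <;> first | omega | linarith [c1, c2]]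
      · refine ⟨fun l => absurd l (by omega), fun _ => ⟨v, ?_⟩⟩
        rw [ih.1 le_rfl, add_assoc, h7]
        congr 1
        funext u
        by_cases e : u = v
        · simp [b, e, h5, h6]
        · simp [b, e, h2 j u fun e' => e (Prod.mk.inj e').2]
      · refine ⟨fun l' => absurd l' (by omega), fun _ => ?_⟩
        obtain ⟨y, hy⟩ := ih.2 l
        rw [e2 l.ne'] at c2 ⊢
        by_cases e : w j = w' j
        · exact ⟨y, by rw [hy, e, add_right_comm]⟩
        · refine H _ _ _ _ y (fun u => by simp only [b]; split_ifs <;> omega) hy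
            (c1.elim le_of_lt fun c => c.1.le) (c2.elim le_of_lt fun c => c.1.le) ?_
          rcases c1 with c1 | c1 <;> rcases c2 with c2 | c2 <;> first | omega | simp [c1, c2]
  obtain ⟨y, hy⟩ := (key k le_rfl).2 i.2
  have h9 := congrFun hy v
  have : (Pi.single y 1 : Fin n → ℕ) v ≤ 1 := by rw [Pi.single_apply]; split_ifs <;> omega
  have h10 : card {j | w' j ∈ A' j v} < card {j | w' j ∈ A j v} := by
    refine card_lt_card ⟨fun j => ?_, fun e => by simpa [h7, h5, h6] using @e i⟩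
    by_cases e : j = i
    · simp [e, h7, h5]
    · simp [h2 j v fun e' => e (Prod.mk.inj e').1]
  simp only [S, Fin.is_lt, true_and, Pi.add_apply] at h9
  omega

lemma step_one : Step (fun _ : Fin n => 1) := by
  intro s s' b b' y _ _ h1 h2 h3
  have (s : Fin n → ℕ) : owa (fun _ => 1) s = ∑ j, (s j : ℝ) := by
    simpa [owa] using Equiv.sum_comp (Tuple.sort s) fun j => (s j : ℝ)
  simp only [this, Pi.add_apply, Nat.cast_add, sum_add_distrib] at h1 h2 h3
  rcases h3 with h3 | h3 <;> linarith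

lemma step_two : Step ![2, 1] := by
  have (s : Fin 2 → ℕ) : owa ![2, 1] s = (s 0 + s 1 + min (s 0) (s 1) : ℕ) := by
    have h := Tuple.monotone_sort s (show 0 ≤ 1 by decide)
    simp only [owa, Fin.sum_univ_two, Matrix.cons_val, Function.comp] at h ⊢
    norm_cast
    generalize Tuple.sort s = σ at h
    fin_cases σ <;> simp at h ⊢ <;> omega
  intro s s' b b' y hb e h1 h2 h3
  simp only [this, Nat.cast_le, Nat.cast_lt, Pi.add_apply, e, funext_iff, Fin.forall_fin_two,
    Fin.exists_fin_two] at *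
  fin_cases y <;> simp at * <;> omega

def rule : (n : ℕ) → Fin n → ℝ
  | 2 => ![2, 1]
  | _ => fun _ => 1

theorem result : (∃ α : (n : ℕ) → Fin n → ℝ, (∀ n j, 0 < α n j) ∧ (∃ n i j, α n i ≠ α n j) ∧
    ∀ n, ¬ Harm (α n)) ∧
    ∀ n, 4 ≤ n → ∀ α : Fin n → ℝ, (∃ i j, α i ≠ α j) → Harm α := by
  refine ⟨⟨rule, fun n j => ?_, ⟨2, 0, 1, by simp [rule]⟩, fun n => ?_⟩,
    fun n hn => by obtain ⟨m, rfl⟩ := Nat.exists_eq_add_of_le' hn; exact big m⟩
  · match n with
    | 0 | 1 | n + 3 => exact one_pos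
    | 2 => fin_cases j <;> simp [rule]
  · match n with
    | 0 | 1 | n + 3 => exact step_one.safe
    | 2 => exact step_two.safe

end Pool.Agent.Results.MP_57045c_lc.Owa
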